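import Mathlib

set_option autoImplicit false

namespace Pool.Agent.Helper38.Dup

open Finset

variable {F : Type} [Field F]

/-- the Hermitian form `∑ x_i σ(y_i)` -/
def hm (σ : F →+* F) (x y : Fin 3 → F) : F := ∑ i, x i * σ (y i)

/-- the cross product -/
def cross {R : Type} [CommRing R] (x y : Fin 3 → R) : Fin 3 → R :=
  ![x 1 * y 2 - x 2 * y 1, x 2 * y 0 - x 0 * y 2, x 0 * y 1 - x 1 * y 0]

theorem hm_eq (σ : F →+* F) (x y : Fin 3 → F) :
    hm σ x y = x 0 * σ (y 0) + x 1 * σ (y 1) + x 2 * σ (y 2) := by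
  simp [hm, Fin.sum_univ_three]

/-- special unitary matrices for the form `hm` -/
def IsG (σ : F →+* F) (M : Matrix (Fin 3) (Fin 3) F) : Prop :=
  (M.map σ).transpose * M = 1 ∧ M.det = 1

/-- matrix with columns `v`, `w`, `σ (v × w)` -/
def phi (σ : F →+* F) (v w : Fin 3 → F) : Matrix (Fin 3) (Fin 3) F :=
  Matrix.of (fun i j => (![v i, w i, σ (cross v w i)] : Fin 3 → F) j)

theorem hm_symm (σ : F →+* F) (hσ : ∀ x, σ (σ x) = x) (x y : Fin 3 → F) :
    hm σ y x = σ (hm σ x y) := by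
  simp only [hm_eq, map_add, map_mul, hσ]; ring

theorem isG_mul (σ : F →+* F) {M B : Matrix (Fin 3) (Fin 3) F} (hM : IsG σ M) (hB : IsG σ B) :
    IsG σ (M * B) := by
  obtain ⟨h1, h2⟩ := hM
  obtain ⟨h3, h4⟩ := hB
  refine ⟨?_, ?_⟩
  · rw [Matrix.map_mul, Matrix.transpose_mul, Matrix.mul_assoc,
      ← Matrix.mul_assoc (M.map σ).transpose, h1, Matrix.one_mul, h3]
  · rw [Matrix.det_mul, h2, h4, one_mul]

/-- inverse of a special unitary matrix -/
def inv (σ : F →+* F) (B : Matrix (Fin 3) (Fin 3) F) : Matrix (Fin 3) (Fin 3) F :=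
  (B.map σ).transpose

theorem mul_inv_of_isG (σ : F →+* F) {B : Matrix (Fin 3) (Fin 3) F} (hB : IsG σ B) :
    B * inv σ B = 1 := by
  exact mul_eq_one_comm.mp hB.1

theorem inv_mul_of_isG (σ : F →+* F) {B : Matrix (Fin 3) (Fin 3) F} (hB : IsG σ B) :
    inv σ B * B = 1 := hB.1

theorem isG_inv (σ : F →+* F) (hσ : ∀ x, σ (σ x) = x) {B : Matrix (Fin 3) (Fin 3) F}
    (hB : IsG σ B) : IsG σ (inv σ B) := by
  refine ⟨?_, ?_⟩
  · have : ((inv σ B).map σ).transpose = B := by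
      ext i j
      simp [inv, hσ]
    rw [this]
    exact mul_inv_of_isG σ hB
  · have h := congrArg Matrix.det (mul_inv_of_isG σ hB)
    rw [Matrix.det_mul, hB.2, one_mul, Matrix.det_one] at h
    exact h

theorem isG_phi (σ : F →+* F) (hσ : ∀ x, σ (σ x) = x) {v w : Fin 3 → F}
    (hv : hm σ v v = 1) (hw : hm σ w w = 1) (hvw : hm σ v w = 0) : IsG σ (phi σ v w) := by
  have hwv : hm σ w v = 0 := by rw [hm_symm σ hσ v w, hvw, map_zero]
  rw [hm_eq] at hv hw hvw hwv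
  refine ⟨?_, ?_⟩
  · ext i j
    fin_cases i <;> fin_cases j <;>
      simp [phi, cross, Matrix.mul_apply, Fin.sum_univ_three, hσ]
    · linear_combination hv
    · linear_combination hwv
    · ring
    · linear_combination hvw
    · linear_combination hw
    · ring
    · ring
    · ring
    · linear_combination (w 0 * σ (w 0) + w 1 * σ (w 1) + w 2 * σ (w 2)) * hv + hw
        - (w 0 * σ (v 0) + w 1 * σ (v 1) + w 2 * σ (v 2)) * hvw
  · rw [Matrix.det_fin_three]
    simp [phi, cross]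
    linear_combination (w 0 * σ (w 0) + w 1 * σ (w 1) + w 2 * σ (w 2)) * hv + hw
        - (w 0 * σ (v 0) + w 1 * σ (v 1) + w 2 * σ (v 2)) * hvw

/-- column -/
def col (M : Matrix (Fin 3) (Fin 3) F) (j : Fin 3) : Fin 3 → F := fun i => M i j

theorem hm_col (σ : F →+* F) {M : Matrix (Fin 3) (Fin 3) F} (hM : IsG σ M) (i j : Fin 3) :
    hm σ (col M j) (col M i) = if i = j then 1 else 0 := by
  have := congrFun (congrFun hM.1 i) j
  rw [Matrix.mul_apply] at this
  simp only [Matrix.transpose_apply, Matrix.map_apply, Matrix.one_apply] at this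
  rw [← this]
  simp only [hm, col]
  exact Finset.sum_congr rfl (fun k _ => mul_comm _ _)

theorem eq_phi (σ : F →+* F) (hσ : ∀ x, σ (σ x) = x) {M : Matrix (Fin 3) (Fin 3) F}
    (hM : IsG σ M) : M = phi σ (col M 0) (col M 1) := by
  have h1 : M.adjugate = inv σ M := by
    calc M.adjugate = M.adjugate * (M * inv σ M) := by rw [mul_inv_of_isG σ hM, Matrix.mul_one]
      _ = inv σ M := by rw [← Matrix.mul_assoc, Matrix.adjugate_mul, hM.2, one_smul, Matrix.one_mul]
  have h2 : ∀ i, σ (M i 2) = M.adjugate 2 i := by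
    intro i; rw [h1]; rfl
  rw [Matrix.adjugate_fin_three] at h2
  have key : ∀ i, M i 2 = σ (cross (col M 0) (col M 1) i) := by
    intro i
    rw [← hσ (M i 2), h2 i]
    congr 1
    fin_cases i <;> simp [cross, col] <;> ring
  ext i j
  fin_cases j
  · simp [phi, col]
  · simp [phi, col]
  · simpa [phi] using key i

theorem hm_smul_left (σ : F →+* F) (a : F) (x y : Fin 3 → F) :
    hm σ (a • x) y = a * hm σ x y := by
  simp only [hm_eq, Pi.smul_apply, smul_eq_mul]; ring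

theorem hm_smul_right (σ : F →+* F) (a : F) (x y : Fin 3 → F) :
    hm σ x (a • y) = σ a * hm σ x y := by
  simp only [hm_eq, Pi.smul_apply, smul_eq_mul, map_mul]; ring


/-! ### Sums over the special unitary group -/

section sums
variable [Fintype F]

open Classical in
/-- the finite set of special unitary matrices -/
noncomputable def GG (σ : F →+* F) : Finset (Matrix (Fin 3) (Fin 3) F) :=
  univ.filter (fun M => IsG σ M)

theorem mem_GG (σ : F →+* F) (M : Matrix (Fin 3) (Fin 3) F) : M ∈ GG σ ↔ IsG σ M := by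
  simp [GG]

theorem sum_mul_right (σ : F →+* F) (hσ : ∀ x, σ (σ x) = x) {B : Matrix (Fin 3) (Fin 3) F}
    (hB : IsG σ B) (f : Matrix (Fin 3) (Fin 3) F → ℤ) :
    ∑ M ∈ GG σ, f (M * B) = ∑ M ∈ GG σ, f M := by
  refine Finset.sum_nbij' (fun M => M * B) (fun M => M * inv σ B) ?_ ?_ ?_ ?_ ?_
  · intro M hM
    rw [mem_GG] at hM ⊢
    exact isG_mul σ hM hB
  · intro M hM
    rw [mem_GG] at hM ⊢
    exact isG_mul σ hM (isG_inv σ hσ hB)
  · intro M _
    show M * B * inv σ B = M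
    rw [Matrix.mul_assoc, mul_inv_of_isG σ hB, Matrix.mul_one]
  · intro M _
    show M * inv σ B * B = M
    rw [Matrix.mul_assoc, inv_mul_of_isG σ hB, Matrix.mul_one]
  · intro M _
    rfl

/-- cyclic permutation matrix -/
def cyc : Matrix (Fin 3) (Fin 3) F := !![0, 0, 1; 1, 0, 0; 0, 1, 0]

theorem isG_cyc (σ : F →+* F) : IsG σ (cyc : Matrix (Fin 3) (Fin 3) F) := by
  refine ⟨?_, ?_⟩
  · ext i j
    fin_cases i <;> fin_cases j <;> simp [cyc, Matrix.mul_apply, Fin.sum_univ_three]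
  · rw [Matrix.det_fin_three]; simp [cyc]

theorem col_mul_cyc0 (M : Matrix (Fin 3) (Fin 3) F) : col (M * cyc) 0 = col M 1 := by
  ext i; simp [col, cyc, Matrix.mul_apply, Fin.sum_univ_three]

theorem col_mul_cyc1 (M : Matrix (Fin 3) (Fin 3) F) : col (M * cyc) 1 = col M 2 := by
  ext i; simp [col, cyc, Matrix.mul_apply, Fin.sum_univ_three]

theorem col_mul_cyc2 (M : Matrix (Fin 3) (Fin 3) F) : col (M * cyc) 2 = col M 0 := by
  ext i; simp [col, cyc, Matrix.mul_apply, Fin.sum_univ_three]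

/-- For a `{0,1}`-valued function `c` on vectors with no special unitary matrix having all three
columns of value one: the number of matrices with an odd number of columns of value one. -/
theorem sum_bad (σ : F →+* F) (hσ : ∀ x, σ (σ x) = x) (c : (Fin 3 → F) → ℤ)
    (hc : ∀ v, c v = 0 ∨ c v = 1)
    (h3 : ∀ M ∈ GG σ, c (col M 0) * c (col M 1) * c (col M 2) = 0) :
    ∑ M ∈ GG σ, (c (col M 0) + c (col M 1) + c (col M 2)) % 2
      = 3 * (∑ M ∈ GG σ, c (col M 0)) - 6 * (∑ M ∈ GG σ, c (col M 0) * c (col M 1)) := by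
  have e1 : ∑ M ∈ GG σ, c (col M 1) = ∑ M ∈ GG σ, c (col M 0) := by
    rw [← sum_mul_right σ hσ (isG_cyc σ) (fun M => c (col M 0))]
    exact Finset.sum_congr rfl (fun M _ => by simp only [col_mul_cyc0])
  have e2 : ∑ M ∈ GG σ, c (col M 2) = ∑ M ∈ GG σ, c (col M 0) := by
    rw [← e1, ← sum_mul_right σ hσ (isG_cyc σ) (fun M => c (col M 1))]
    exact Finset.sum_congr rfl (fun M _ => by simp only [col_mul_cyc1])
  have f1 : ∑ M ∈ GG σ, c (col M 1) * c (col M 2) = ∑ M ∈ GG σ, c (col M 0) * c (col M 1) := by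
    rw [← sum_mul_right σ hσ (isG_cyc σ) (fun M => c (col M 0) * c (col M 1))]
    exact Finset.sum_congr rfl (fun M _ => by simp only [col_mul_cyc0, col_mul_cyc1])
  have f2 : ∑ M ∈ GG σ, c (col M 2) * c (col M 0) = ∑ M ∈ GG σ, c (col M 0) * c (col M 1) := by
    rw [← f1, ← sum_mul_right σ hσ (isG_cyc σ) (fun M => c (col M 1) * c (col M 2))]
    exact Finset.sum_congr rfl (fun M _ => by simp only [col_mul_cyc1, col_mul_cyc2])
  have key : ∀ M ∈ GG σ, (c (col M 0) + c (col M 1) + c (col M 2)) % 2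
      = c (col M 0) + c (col M 1) + c (col M 2)
        - 2 * (c (col M 0) * c (col M 1) + c (col M 1) * c (col M 2)
            + c (col M 2) * c (col M 0)) := by
    intro M hM
    have h := h3 M hM
    rcases hc (col M 0) with a | a <;> rcases hc (col M 1) with b | b <;>
      rcases hc (col M 2) with d | d <;> rw [a, b, d] at h ⊢ <;> simp_all
  rw [Finset.sum_congr rfl key]
  rw [Finset.sum_sub_distrib, Finset.sum_add_distrib, Finset.sum_add_distrib, ← Finset.mul_sum,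
    Finset.sum_add_distrib, Finset.sum_add_distrib, e1, e2, f1, f2]
  ring

end sums

/-! ### The certificate over `ℤ[√2]` modulo `5` -/

section cert

def pts : Fin 29 → Fin 3 → ℤ√2 :=
  ![![⟨1, 0⟩, ⟨0, 0⟩, ⟨0, 0⟩],
    ![⟨1, -2⟩, ⟨0, -2⟩, ⟨-1, 0⟩],
    ![⟨1, -1⟩, ⟨0, 1⟩, ⟨1, 1⟩],
    ![⟨1, -1⟩, ⟨1, 0⟩, ⟨2, -2⟩],
    ![⟨0, 1⟩, ⟨2, 0⟩, ⟨2, 0⟩],
    ![⟨1, -1⟩, ⟨0, -1⟩, ⟨-1, -1⟩],
    ![⟨1, -1⟩, ⟨-1, -1⟩, ⟨0, -1⟩],
    ![⟨2, 0⟩, ⟨1, -1⟩, ⟨0, -1⟩],
    ![⟨2, 0⟩, ⟨1, -1⟩, ⟨0, 1⟩],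
    ![⟨0, 1⟩, ⟨1, 2⟩, ⟨0, 0⟩],
    ![⟨0, 1⟩, ⟨-2, 0⟩, ⟨-2, 0⟩],
    ![⟨0, 0⟩, ⟨0, 1⟩, ⟨0, -1⟩],
    ![⟨0, 1⟩, ⟨-1, -2⟩, ⟨0, 0⟩],
    ![⟨2, 0⟩, ⟨-1, 1⟩, ⟨0, -1⟩],
    ![⟨2, 0⟩, ⟨-1, 1⟩, ⟨0, 1⟩],
    ![⟨0, 1⟩, ⟨-1, -1⟩, ⟨1, 1⟩],
    ![⟨0, 1⟩, ⟨1, 1⟩, ⟨-1, -1⟩],
    ![⟨0, 0⟩, ⟨0, 1⟩, ⟨0, 1⟩],
    ![⟨1, -2⟩, ⟨1, 0⟩, ⟨0, -2⟩],
    ![⟨1, -1⟩, ⟨-2, 2⟩, ⟨1, 0⟩],
    ![⟨1, -1⟩, ⟨-1, -1⟩, ⟨0, 1⟩],
    ![⟨1, -1⟩, ⟨2, -2⟩, ⟨-1, 0⟩],
    ![⟨2, 0⟩, ⟨0, 1⟩, ⟨1, -1⟩],
    ![⟨1, -2⟩, ⟨-1, 0⟩, ⟨0, 2⟩],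
    ![⟨1, -1⟩, ⟨1, 1⟩, ⟨0, -1⟩],
    ![⟨1, -1⟩, ⟨1, 1⟩, ⟨0, 1⟩],
    ![⟨1, -1⟩, ⟨-1, 0⟩, ⟨-2, 2⟩],
    ![⟨1, -2⟩, ⟨0, 2⟩, ⟨1, 0⟩],
    ![⟨2, 0⟩, ⟨0, -1⟩, ⟨-1, 1⟩]]

def fa : Fin 19 → Fin 29 := ![1, 4, 7, 4, 12, 15, 14, 19, 6, 21, 15, 21, 12, 26, 25, 26, 0, 19, 28]

def fb : Fin 19 → Fin 29 := ![2, 5, 8, 10, 13, 16, 18, 20, 20, 1, 22, 23, 24, 23, 10, 5, 17, 28, 8]

def fc : Fin 19 → Fin 29 := ![3, 6, 9, 11, 14, 17, 3, 18, 9, 22, 13, 24, 25, 7, 2, 27, 11, 27, 16]

def lam : Fin 19 → ℤ√2 := ![⟨2, -2⟩, ⟨2, 2⟩, ⟨-2, -2⟩, ⟨1, 0⟩, ⟨2, 2⟩, ⟨-2, 2⟩, ⟨1, 0⟩, ⟨-2, 2⟩, ⟨2, -2⟩, ⟨-1, 0⟩, ⟨2, -2⟩, ⟨2, -2⟩, ⟨-2, 2⟩, ⟨-1, 0⟩, ⟨2, 2⟩, ⟨-2, 2⟩, ⟨1, 0⟩, ⟨1, 0⟩, ⟨2, -2⟩]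

/-- divisibility by `5` in `ℤ[√2]` -/
def z5 (x : ℤ√2) : Prop := x.re % 5 = 0 ∧ x.im % 5 = 0

instance (x : ℤ√2) : Decidable (z5 x) := inferInstanceAs (Decidable (_ ∧ _))

theorem check_unit : ∀ j : Fin 29,
    z5 (pts j 0 * star (pts j 0) + pts j 1 * star (pts j 1) + pts j 2 * star (pts j 2) - 1) := by
  decide +kernel

theorem check_orth : ∀ k : Fin 19,
    z5 (pts (fa k) 0 * star (pts (fb k) 0) + pts (fa k) 1 * star (pts (fb k) 1)
      + pts (fa k) 2 * star (pts (fb k) 2)) := by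
  decide +kernel

theorem check_cross : ∀ k : Fin 19, ∀ i : Fin 3,
    z5 (star (cross (pts (fa k)) (pts (fb k)) i) - lam k * pts (fc k) i) := by
  decide +kernel

theorem check_lam : ∀ k : Fin 19, z5 (lam k * star (lam k) - 1) := by
  decide +kernel

theorem parity (c : Fin 29 → ℤ) (h0 : c 0 = 0 ∨ c 0 = 1) :
    c 0 ≤ ∑ k : Fin 19, (c (fa k) + c (fb k) + c (fc k)) % 2 := by
  have hnn : ∀ k : Fin 19, 0 ≤ (c (fa k) + c (fb k) + c (fc k)) % 2 := fun k =>
    Int.emod_nonneg _ (by norm_num)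
  rcases h0 with h0 | h0
  · rw [h0]; exact Finset.sum_nonneg (fun k _ => hnn k)
  · by_contra hcon
    push Not at hcon
    have hz : ∑ k : Fin 19, (c (fa k) + c (fb k) + c (fc k)) % 2 = 0 := by
      have := Finset.sum_nonneg (s := (univ : Finset (Fin 19))) (fun k _ => hnn k)
      omega
    have hz' := (Finset.sum_eq_zero_iff_of_nonneg (fun k _ => hnn k)).1 hz
    have hsum : (2 : ℤ) ∣ ∑ k : Fin 19, (c (fa k) + c (fb k) + c (fc k)) :=
      Finset.dvd_sum (fun k _ => Int.dvd_of_emod_eq_zero (hz' k (mem_univ k)))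
    have hexp : ∑ k : Fin 19, (c (fa k) + c (fb k) + c (fc k)) = c 0 + 2 * (∑ j : Fin 28, c j.succ) := by
      simp only [Fin.sum_univ_succ, fa, fb, fc]
      simp [Fin.sum_univ_succ]
      ring
    rw [hexp, h0] at hsum
    omega

end cert

/-! ### Transfer of the certificate to `F` -/

section transfer

theorem phi_z5 (φ : ℤ√2 →+* F) (h5 : (5 : F) = 0) {x : ℤ√2} (hx : z5 x) : φ x = 0 := by
  obtain ⟨h1, h2⟩ := hx
  obtain ⟨a, ha⟩ := Int.dvd_of_emod_eq_zero h1
  obtain ⟨b, hb⟩ := Int.dvd_of_emod_eq_zero h2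
  have : x = (5 : ℤ√2) * ⟨a, b⟩ := by
    apply Zsqrtd.ext <;> simp [ha, hb]
  rw [this, map_mul, map_ofNat, h5, zero_mul]

theorem phi_star (σ : F →+* F) (φ : ℤ√2 →+* F) (hw : σ (φ Zsqrtd.sqrtd) = - φ Zsqrtd.sqrtd)
    (x : ℤ√2) : φ (star x) = σ (φ x) := by
  have : (φ.comp (starRingEnd (ℤ√2))) = σ.comp φ := by
    apply Zsqrtd.hom_ext
    simp only [RingHom.comp_apply]
    rw [hw, ← map_neg]
    congr 1
  exact congrArg (fun g : ℤ√2 →+* F => g x) this

/-- the points of the configuration in `F` -/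
def pt (φ : ℤ√2 →+* F) (j : Fin 29) : Fin 3 → F := fun i => φ (pts j i)

variable (σ : F →+* F) (φ : ℤ√2 →+* F)

theorem pt_unit (h5 : (5 : F) = 0) (hw : σ (φ Zsqrtd.sqrtd) = - φ Zsqrtd.sqrtd) (j : Fin 29) :
    hm σ (pt φ j) (pt φ j) = 1 := by
  have h := phi_z5 φ h5 (check_unit j)
  rw [map_sub, map_add, map_add, map_mul, map_mul, map_mul, map_one, phi_star σ φ hw,
    phi_star σ φ hw, phi_star σ φ hw] at h
  rw [hm_eq]
  simp only [pt]
  linear_combination h

theorem pt_orth (h5 : (5 : F) = 0) (hw : σ (φ Zsqrtd.sqrtd) = - φ Zsqrtd.sqrtd) (k : Fin 19) :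
    hm σ (pt φ (fa k)) (pt φ (fb k)) = 0 := by
  have h := phi_z5 φ h5 (check_orth k)
  rw [map_add, map_add, map_mul, map_mul, map_mul, phi_star σ φ hw,
    phi_star σ φ hw, phi_star σ φ hw] at h
  rw [hm_eq]
  simp only [pt]
  linear_combination h

theorem cross_map {R S : Type} [CommRing R] [CommRing S] (f : R →+* S) (x y : Fin 3 → R)
    (i : Fin 3) : f (cross x y i) = cross (fun i => f (x i)) (fun i => f (y i)) i := by
  fin_cases i <;> simp [cross]

theorem pt_cross (h5 : (5 : F) = 0) (hw : σ (φ Zsqrtd.sqrtd) = - φ Zsqrtd.sqrtd) (k : Fin 19)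
    (i : Fin 3) :
    σ (cross (pt φ (fa k)) (pt φ (fb k)) i) = φ (lam k) * pt φ (fc k) i := by
  have h := phi_z5 φ h5 (check_cross k i)
  rw [map_sub, map_mul, phi_star σ φ hw, cross_map] at h
  exact sub_eq_zero.1 h

theorem lam_ne (h5 : (5 : F) = 0) (hw : σ (φ Zsqrtd.sqrtd) = - φ Zsqrtd.sqrtd) (k : Fin 19) :
    φ (lam k) ≠ 0 := by
  have h := phi_z5 φ h5 (check_lam k)
  rw [map_sub, map_mul, map_one] at h
  intro h0
  rw [h0, zero_mul, zero_sub] at h
  exact one_ne_zero (neg_eq_zero.1 h)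

theorem col_mul (M B : Matrix (Fin 3) (Fin 3) F) (j : Fin 3) :
    col (M * B) j = M.mulVec (col B j) := by
  ext i
  simp [col, Matrix.mul_apply, Matrix.mulVec, dotProduct]

/-- The main inequality: if `c` is a `{0,1}`-valued function on vectors, invariant under scalars,
such that no special unitary matrix has all three columns of value one, then the density of
`c = 1` is bounded in terms of the pair density. -/
theorem main_ineq [Fintype F] (hσ : ∀ x, σ (σ x) = x) (h5 : (5 : F) = 0)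
    (hw : σ (φ Zsqrtd.sqrtd) = - φ Zsqrtd.sqrtd)
    (c : (Fin 3 → F) → ℤ) (hc : ∀ v, c v = 0 ∨ c v = 1)
    (hinv : ∀ (a : F) (v : Fin 3 → F), a ≠ 0 → c (a • v) = c v)
    (h3 : ∀ M ∈ GG σ, c (col M 0) * c (col M 1) * c (col M 2) = 0) :
    114 * (∑ M ∈ GG σ, c (col M 0) * c (col M 1)) ≤ 56 * (∑ M ∈ GG σ, c (col M 0)) := by
  have hB : ∀ k : Fin 19, IsG σ (phi σ (pt φ (fa k)) (pt φ (fb k))) := fun k =>
    isG_phi σ hσ (pt_unit σ φ h5 hw _) (pt_unit σ φ h5 hw _) (pt_orth σ φ h5 hw k)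
  have hpt0 : ∀ M : Matrix (Fin 3) (Fin 3) F, M.mulVec (pt φ 0) = col M 0 := by
    intro M
    ext i
    simp [col, Matrix.mulVec, dotProduct, Fin.sum_univ_three, pt, pts]
    have e1 : φ ({ re := 1, im := 0 } : ℤ√2) = 1 := map_one φ
    have e2 : φ ({ re := 0, im := 0 } : ℤ√2) = 0 := map_zero φ
    rw [e1, e2]; ring
  have hcols : ∀ (M : Matrix (Fin 3) (Fin 3) F) (k : Fin 19),
      c (col (M * phi σ (pt φ (fa k)) (pt φ (fb k))) 0)
      + c (col (M * phi σ (pt φ (fa k)) (pt φ (fb k))) 1)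
      + c (col (M * phi σ (pt φ (fa k)) (pt φ (fb k))) 2)
      = c (M.mulVec (pt φ (fa k))) + c (M.mulVec (pt φ (fb k))) + c (M.mulVec (pt φ (fc k))) := by
    intro M k
    have a0 : col (phi σ (pt φ (fa k)) (pt φ (fb k))) 0 = pt φ (fa k) := by
      ext i; simp [col, phi]
    have a1 : col (phi σ (pt φ (fa k)) (pt φ (fb k))) 1 = pt φ (fb k) := by
      ext i; simp [col, phi]
    have a2 : col (phi σ (pt φ (fa k)) (pt φ (fb k))) 2 = φ (lam k) • pt φ (fc k) := by
      ext i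
      have := pt_cross σ φ h5 hw k i
      simp only [Pi.smul_apply, smul_eq_mul]
      rw [← this]
      simp [col, phi]
    rw [col_mul, col_mul, col_mul, a0, a1, a2, Matrix.mulVec_smul, hinv _ _ (lam_ne σ φ h5 hw k)]
  have hle : ∑ M ∈ GG σ, c (col M 0)
      ≤ ∑ M ∈ GG σ, ∑ k : Fin 19, (c (col (M * phi σ (pt φ (fa k)) (pt φ (fb k))) 0)
      + c (col (M * phi σ (pt φ (fa k)) (pt φ (fb k))) 1)
      + c (col (M * phi σ (pt φ (fa k)) (pt φ (fb k))) 2)) % 2 := by
    apply Finset.sum_le_sum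
    intro M _
    have h := parity (fun j => c (M.mulVec (pt φ j))) (hc _)
    simp only [hcols]
    rw [← hpt0 M]
    exact h
  rw [Finset.sum_comm] at hle
  have hsame : ∀ k : Fin 19, ∑ M ∈ GG σ, (c (col (M * phi σ (pt φ (fa k)) (pt φ (fb k))) 0)
      + c (col (M * phi σ (pt φ (fa k)) (pt φ (fb k))) 1)
      + c (col (M * phi σ (pt φ (fa k)) (pt φ (fb k))) 2)) % 2
      = ∑ M ∈ GG σ, (c (col M 0) + c (col M 1) + c (col M 2)) % 2 := fun k =>
    sum_mul_right σ hσ (hB k) (fun M => (c (col M 0) + c (col M 1) + c (col M 2)) % 2)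
  rw [Finset.sum_congr rfl (fun k _ => hsame k), Finset.sum_const, sum_bad σ hσ c hc h3] at hle
  simp at hle
  linarith

end transfer

/-! ### Counting -/

section counting

variable [Fintype F] [DecidableEq F] (σ : F →+* F)

/-- orthonormal pairs -/
def OO : Finset ((Fin 3 → F) × (Fin 3 → F)) :=
  univ.filter (fun p => hm σ p.1 p.1 = 1 ∧ hm σ p.2 p.2 = 1 ∧ hm σ p.1 p.2 = 0)

theorem sum_GG (hσ : ∀ x, σ (σ x) = x) (f : (Fin 3 → F) → (Fin 3 → F) → ℤ) :
    ∑ M ∈ GG σ, f (col M 0) (col M 1) = ∑ p ∈ OO σ, f p.1 p.2 := by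
  refine Finset.sum_nbij' (fun M => (col M 0, col M 1)) (fun p => phi σ p.1 p.2) ?_ ?_ ?_ ?_ ?_
  · intro M hM
    rw [mem_GG] at hM
    simp only [OO, mem_filter, mem_univ, true_and]
    refine ⟨?_, ?_, ?_⟩
    · simpa using hm_col σ hM 0 0
    · simpa using hm_col σ hM 1 1
    · simpa using hm_col σ hM 1 0
  · intro p hp
    simp only [OO, mem_filter, mem_univ, true_and] at hp
    rw [mem_GG]
    exact isG_phi σ hσ hp.1 hp.2.1 hp.2.2
  · intro M hM
    rw [mem_GG] at hM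
    exact (eq_phi σ hσ hM).symm
  · intro p _
    ext i <;> simp [col, phi]
  · intro M _
    rfl

theorem card_ker_eq (hb : Function.Bijective σ) {w : Fin 3 → F} (hw : w ≠ 0) :
    (univ.filter (fun y : Fin 3 → F => hm σ w y = 0)).card = Fintype.card F ^ 2 := by
  classical
  let f : (Fin 3 → F) →ₗ[F] F := ∑ i, w i • LinearMap.proj i
  have hf : ∀ y, f y = ∑ i, w i * y i := by
    intro y; simp [f]
  have hf0 : f ≠ 0 := by
    intro h
    apply hw
    ext i
    have := congrArg (fun g : (Fin 3 → F) →ₗ[F] F => g (Pi.single i 1)) h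
    simp only [hf, LinearMap.zero_apply] at this
    simpa [Pi.single_apply] using this
  have hdim : Module.finrank F (LinearMap.ker f) = 2 := by
    have h1 := Module.Dual.finrank_ker_add_one_of_ne_zero (f := f) hf0
    have h2 : Module.finrank F (Fin 3 → F) = 3 := by simp
    omega
  have hcard : Fintype.card (LinearMap.ker f) = Fintype.card F ^ 2 := by
    rw [Module.card_eq_pow_finrank (K := F), hdim]
  rw [← hcard, ← Fintype.card_coe]
  refine Fintype.card_congr ?_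
  let e : F ≃ F := Equiv.ofBijective σ hb
  refine Equiv.subtypeEquiv (Equiv.piCongrRight (fun _ => e)) ?_
  intro y
  rw [LinearMap.mem_ker, hf, mem_filter]
  simp [hm, e]

theorem card_pair_le (hb : Function.Bijective σ) {w w' : Fin 3 → F} (hw : cross w w' ≠ 0) :
    (univ.filter (fun y : Fin 3 → F => hm σ w y = 0 ∧ hm σ w' y = 0)).card
      ≤ Fintype.card F := by
  classical
  obtain ⟨j, hj⟩ : ∃ j, cross w w' j ≠ 0 := by
    by_contra h
    push Not at h
    exact hw (funext h)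
  rw [← Finset.card_univ]
  apply Finset.card_le_card_of_injOn (fun y => y j) (fun _ _ => by simp)
  have key : ∀ y : Fin 3 → F, hm σ w y = 0 → hm σ w' y = 0 → ∀ i,
      σ (y i) * cross w w' j = σ (y j) * cross w w' i := by
    intro y h1 h2 i
    rw [hm_eq] at h1 h2
    fin_cases i <;> fin_cases j <;> simp [cross]
    · linear_combination w 2 * h2 - w' 2 * h1
    · linear_combination w' 1 * h1 - w 1 * h2
    · linear_combination w' 2 * h1 - w 2 * h2
    · linear_combination w 0 * h2 - w' 0 * h1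
    · linear_combination w 1 * h2 - w' 1 * h1
    · linear_combination w' 0 * h1 - w 0 * h2
  intro y hy z hz hyz
  rw [mem_coe, mem_filter] at hy hz
  simp only [mem_univ, true_and] at hy hz
  ext i
  have h1 := key y hy.1 hy.2 i
  have h2 := key z hz.1 hz.2 i
  have hyz' : y j = z j := hyz
  rw [hyz', ← h2] at h1
  exact hb.1 (mul_right_cancel₀ hj h1)

theorem card_norm_le {q : ℕ} (hq : ∀ x : F, σ x = x ^ q) (a : F) :
    (univ.filter (fun x : F => x * σ x = a)).card ≤ q + 1 := by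
  classical
  have h : univ.filter (fun x : F => x * σ x = a) ⊆ (Polynomial.nthRoots (q + 1) a).toFinset := by
    intro x hx
    rw [mem_filter] at hx
    rw [Multiset.mem_toFinset, Polynomial.mem_nthRoots (Nat.succ_pos q), pow_succ', ← hq]
    exact hx.2
  calc _ ≤ _ := Finset.card_le_card h
    _ ≤ _ := Multiset.toFinset_card_le _
    _ ≤ _ := Polynomial.card_nthRoots _ _

theorem card_norm_ge {q : ℕ} (hq0 : 2 ≤ q) (hσ : ∀ x, σ (σ x) = x) (hq : ∀ x : F, σ x = x ^ q)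
    (hF : Fintype.card F = q ^ 2) {a : F} (ha : a ≠ 0) (haσ : σ a = a) :
    q + 1 ≤ (univ.filter (fun x : F => x * σ x = a)).card := by
  classical
  set Fx : Finset F := univ.filter (fun b : F => σ b = b ∧ b ≠ 0) with hFx
  have hFxcard : Fx.card ≤ q - 1 := by
    have h : Fx ⊆ (Polynomial.nthRoots (q - 1) (1 : F)).toFinset := by
      intro x hx
      rw [hFx, mem_filter] at hx
      rw [Multiset.mem_toFinset, Polynomial.mem_nthRoots (by omega)]
      have h1 := hx.2.1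
      rw [hq] at h1
      have h2 : x * x ^ (q - 1) = x * 1 := by
        rw [← pow_succ', Nat.sub_add_cancel (by omega), h1, mul_one]
      exact mul_left_cancel₀ hx.2.2 h2
    calc _ ≤ _ := Finset.card_le_card h
      _ ≤ _ := Multiset.toFinset_card_le _
      _ ≤ _ := Polynomial.card_nthRoots _ _
  have hmaps : ∀ x ∈ (univ.filter (fun x : F => x ≠ 0)), x * σ x ∈ Fx := by
    intro x hx
    rw [mem_filter] at hx
    rw [hFx, mem_filter]
    refine ⟨mem_univ _, ?_, ?_⟩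
    · rw [map_mul, hσ, mul_comm]
    · exact mul_ne_zero hx.2 (by simpa using hx.2)
  have htot := Finset.card_eq_sum_card_fiberwise hmaps
  have hne : (univ.filter (fun x : F => x ≠ 0)).card = q ^ 2 - 1 := by
    rw [Finset.filter_ne' univ (0 : F), Finset.card_erase_of_mem (mem_univ _), Finset.card_univ, hF]
  have haF : a ∈ Fx := by rw [hFx, mem_filter]; exact ⟨mem_univ _, haσ, ha⟩
  rw [hne, ← Finset.add_sum_erase _ _ haF] at htot
  have hle1 : ((univ.filter (fun x : F => x ≠ 0)).filter (fun x => x * σ x = a)).card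
      ≤ (univ.filter (fun x : F => x * σ x = a)).card := by
    apply Finset.card_le_card
    intro x hx
    simp only [mem_filter, mem_univ, true_and] at hx ⊢
    exact hx.2
  have hle2 : ∑ b ∈ Fx.erase a, ((univ.filter (fun x : F => x ≠ 0)).filter
      (fun x => x * σ x = b)).card ≤ (q - 2) * (q + 1) := by
    calc _ ≤ ∑ b ∈ Fx.erase a, (q + 1) := by
          apply Finset.sum_le_sum
          intro b _
          refine le_trans (Finset.card_le_card ?_) (card_norm_le σ hq b)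
          intro x hx
          simp only [mem_filter, mem_univ, true_and] at hx ⊢
          exact hx.2
      _ = (Fx.erase a).card * (q + 1) := by rw [Finset.sum_const, smul_eq_mul]
      _ ≤ (q - 2) * (q + 1) := by
          apply Nat.mul_le_mul_right
          rw [Finset.card_erase_of_mem haF]
          omega
  obtain ⟨m, rfl⟩ : ∃ m, q = m + 2 := ⟨q - 2, by omega⟩
  have h3 : (m + 2) ^ 2 - 1 = (m + 2 - 2) * (m + 2 + 1) + (m + 2 + 1) := by
    have : m + 2 - 2 = m := by omega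
    rw [this]
    have : (m + 2) ^ 2 = m * (m + 2 + 1) + (m + 2 + 1) + 1 := by ring
    omega
  omega

theorem card_prop_le {q : ℕ} (hq : ∀ x : F, σ x = x ^ q) {w : Fin 3 → F} (hw : hm σ w w = 1) :
    (univ.filter (fun w' : Fin 3 → F => hm σ w' w' = 1 ∧ cross w w' = 0)).card ≤ q + 1 := by
  classical
  have hw0 : w ≠ 0 := by
    intro h
    rw [h] at hw
    simp [hm] at hw
  obtain ⟨j, hj⟩ : ∃ j, w j ≠ 0 := by
    by_contra h
    push Not at h
    exact hw0 (funext h)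
  refine le_trans ?_ (card_norm_le σ hq (1 : F))
  have key : ∀ w' : Fin 3 → F, cross w w' = 0 → w' = (w' j / w j) • w := by
    intro w' h
    have h0 := congrFun h 0
    have h1 := congrFun h 1
    have h2 := congrFun h 2
    simp [cross] at h0 h1 h2
    ext i
    simp only [Pi.smul_apply, smul_eq_mul]
    rw [div_mul_eq_mul_div, eq_div_iff hj]
    fin_cases i <;> fin_cases j <;> simp
    all_goals first | linear_combination h0 | linear_combination h1 | linear_combination h2 | linear_combination (-1 : F) * h0 | linear_combination (-1 : F) * h1 | linear_combination (-1 : F) * h2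
  apply Finset.card_le_card_of_injOn (fun w' => w' j / w j)
  · intro w' hw'
    rw [mem_coe, mem_filter] at hw' ⊢
    refine ⟨mem_univ _, ?_⟩
    have h1 := hw'.2.1
    rw [key w' hw'.2.2, hm_smul_left, hm_smul_right, hw] at h1
    rw [← h1]; ring
  · intro x hx y hy hxy
    rw [mem_coe, mem_filter] at hx hy
    have hxy' : x j / w j = y j / w j := hxy
    rw [key x hx.2.2, key y hy.2.2, hxy']

end counting

section counting2

variable [Fintype F] [DecidableEq F] (σ : F →+* F)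

theorem card_D_le {q : ℕ} (hb : Function.Bijective σ)
    (hq : ∀ x : F, σ x = x ^ q) (hF : Fintype.card F = q ^ 2) {v : Fin 3 → F} (hv : v ≠ 0) :
    (q ^ 2 - 1) * (univ.filter (fun w : Fin 3 → F => hm σ w w = 1 ∧ hm σ v w = 0)).card
      ≤ (q ^ 2) ^ 2 * (q + 1) := by
  classical
  set D := univ.filter (fun w : Fin 3 → F => hm σ w w = 1 ∧ hm σ v w = 0) with hD
  set K := univ.filter (fun u : Fin 3 → F => hm σ v u = 0) with hK
  have hKc : K.card = (q ^ 2) ^ 2 := by rw [hK, card_ker_eq σ hb hv, hF]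
  set L := univ.filter (fun x : F => x ≠ 0) with hL
  have hLc : L.card = q ^ 2 - 1 := by
    rw [hL, Finset.filter_ne' univ (0 : F), Finset.card_erase_of_mem (mem_univ _),
      Finset.card_univ, hF]
  set Tg : Finset ((_ : Fin 3 → F) × F) :=
    K.sigma (fun u => univ.filter (fun x : F => x * σ x = hm σ u u)) with hTg
  have hTgc : Tg.card ≤ (q ^ 2) ^ 2 * (q + 1) := by
    rw [hTg, Finset.card_sigma, ← hKc, ← smul_eq_mul]
    exact Finset.sum_le_card_nsmul _ _ _ (fun u _ => card_norm_le σ hq _)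
  refine le_trans ?_ hTgc
  rw [← hLc, ← Finset.card_product]
  apply Finset.card_le_card_of_injOn (fun p => (⟨p.1 • p.2, p.1⟩ : (_ : Fin 3 → F) × F))
  · intro p hp
    rw [mem_coe, mem_product, hL, hD, mem_filter, mem_filter] at hp
    rw [mem_coe, hTg, mem_sigma, hK, mem_filter, mem_filter]
    refine ⟨⟨mem_univ _, ?_⟩, mem_univ _, ?_⟩
    · show hm σ v (p.1 • p.2) = 0
      rw [hm_smul_right, hp.2.2.2, mul_zero]
    · show p.1 * σ p.1 = hm σ (p.1 • p.2) (p.1 • p.2)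
      rw [hm_smul_right, hm_smul_left, hp.2.2.1]; ring
  · intro p hp p' hp' h
    rw [mem_coe, mem_product, hL, mem_filter] at hp
    simp only [Sigma.mk.injEq, heq_eq_eq] at h
    obtain ⟨h1, h2⟩ := h
    refine Prod.ext h2 ?_
    rw [← h2] at h1
    exact smul_right_injective _ hp.1.2 h1

theorem card_W_le {q : ℕ} (hq0 : 2 ≤ q) (hσ : ∀ x, σ (σ x) = x)
    (hq : ∀ x : F, σ x = x ^ q) (hF : Fintype.card F = q ^ 2)
    (c : (Fin 3 → F) → ℤ) (hinv : ∀ (a : F) (v : Fin 3 → F), a ≠ 0 → c (a • v) = c v) :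
    (q + 1) * (univ.filter (fun u : Fin 3 → F => hm σ u u ≠ 0 ∧ c u = 1)).card
      ≤ (q ^ 2 - 1) * (univ.filter (fun u : Fin 3 → F => hm σ u u = 1 ∧ c u = 1)).card := by
  classical
  set W := univ.filter (fun u : Fin 3 → F => hm σ u u ≠ 0 ∧ c u = 1) with hW
  set T := univ.filter (fun u : Fin 3 → F => hm σ u u = 1 ∧ c u = 1) with hT
  set L := univ.filter (fun x : F => x ≠ 0) with hL
  have hLc : L.card = q ^ 2 - 1 := by
    rw [hL, Finset.filter_ne' univ (0 : F), Finset.card_erase_of_mem (mem_univ _),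
      Finset.card_univ, hF]
  set Sr : Finset ((_ : Fin 3 → F) × F) :=
    W.sigma (fun u => univ.filter (fun x : F => x * σ x = (hm σ u u)⁻¹)) with hSr
  have hfix : ∀ u : Fin 3 → F, σ (hm σ u u) = hm σ u u := fun u => (hm_symm σ hσ u u).symm
  have hSrc : (q + 1) * W.card ≤ Sr.card := by
    rw [hSr, Finset.card_sigma, mul_comm, ← smul_eq_mul]
    apply Finset.card_nsmul_le_sum
    intro u hu
    rw [hW, mem_filter] at hu
    apply card_norm_ge σ hq0 hσ hq hF (inv_ne_zero hu.2.1)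
    rw [map_inv₀, hfix]
  refine le_trans hSrc ?_
  rw [← hLc, ← Finset.card_product]
  apply Finset.card_le_card_of_injOn (fun p => (p.2, p.2 • p.1))
  · intro p hp
    rw [mem_coe, hSr, mem_sigma, hW, mem_filter, mem_filter] at hp
    have hne : hm σ p.1 p.1 ≠ 0 := hp.1.2.1
    have hx : p.2 * σ p.2 = (hm σ p.1 p.1)⁻¹ := hp.2.2
    have hx0 : p.2 ≠ 0 := by
      intro h
      rw [h, zero_mul] at hx
      exact inv_ne_zero hne hx.symm
    rw [mem_coe, mem_product, hL, hT, mem_filter, mem_filter]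
    refine ⟨⟨mem_univ _, hx0⟩, mem_univ _, ?_, ?_⟩
    · show hm σ (p.2 • p.1) (p.2 • p.1) = 1
      rw [hm_smul_right, hm_smul_left, ← mul_assoc, mul_comm (σ p.2), hx, inv_mul_cancel₀ hne]
    · show c (p.2 • p.1) = 1
      rw [hinv _ _ hx0]; exact hp.1.2.2
  · intro p hp p' hp' h
    rw [mem_coe, hSr, mem_sigma, hW, mem_filter, mem_filter] at hp
    have hne : hm σ p.1 p.1 ≠ 0 := hp.1.2.1
    have hx : p.2 * σ p.2 = (hm σ p.1 p.1)⁻¹ := hp.2.2
    have hx0 : p.2 ≠ 0 := by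
      intro h
      rw [h, zero_mul] at hx
      exact inv_ne_zero hne hx.symm
    simp only [Prod.mk.injEq] at h
    obtain ⟨h1, h2⟩ := h
    rw [← h1] at h2
    have h3 : p.1 = p'.1 := smul_right_injective _ hx0 h2
    exact Sigma.ext h3 (heq_of_eq h1)

theorem card_iso_le {q : ℕ} (hq : ∀ x : F, σ x = x ^ q) (hF : Fintype.card F = q ^ 2) :
    (univ.filter (fun u : Fin 3 → F => hm σ u u = 0)).card ≤ (q ^ 2) ^ 2 * (q + 1) := by
  classical
  set Tg : Finset ((_ : F × F) × F) :=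
    (univ : Finset (F × F)).sigma (fun p => univ.filter (fun x : F =>
      x * σ x = -(p.1 * σ p.1 + p.2 * σ p.2))) with hTg
  have hTgc : Tg.card ≤ (q ^ 2) ^ 2 * (q + 1) := by
    have h1 : (univ : Finset (F × F)).card = (q ^ 2) ^ 2 := by
      rw [Finset.card_univ, Fintype.card_prod, hF]; ring
    rw [hTg, Finset.card_sigma, ← h1, ← smul_eq_mul]
    exact Finset.sum_le_card_nsmul _ _ _ (fun u _ => card_norm_le σ hq _)
  refine le_trans ?_ hTgc
  apply Finset.card_le_card_of_injOn (fun u => (⟨(u 0, u 1), u 2⟩ : (_ : F × F) × F))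
  · intro u hu
    rw [mem_coe, mem_filter, hm_eq] at hu
    rw [mem_coe, hTg, mem_sigma, mem_filter]
    refine ⟨mem_univ _, mem_univ _, ?_⟩
    show u 2 * σ (u 2) = -(u 0 * σ (u 0) + u 1 * σ (u 1))
    linear_combination hu.2
  · intro u _ u' _ h
    simp only [Sigma.mk.injEq, Prod.mk.injEq, heq_eq_eq] at h
    ext i
    fin_cases i
    · exact h.1.1
    · exact h.1.2
    · exact h.2

/-- Second moment bound for pairs of orthogonal vectors. -/
theorem second_moment {q : ℕ} (hb : Function.Bijective σ)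
    (hq : ∀ x : F, σ x = x ^ q) (hF : Fintype.card F = q ^ 2)
    (T : Finset (Fin 3 → F)) (hT : ∀ w ∈ T, hm σ w w = 1) :
    ((∑ y ∈ T, ∑ w ∈ T, (if hm σ w y = 0 then (1 : ℝ) else 0)) - (T.card : ℝ) ^ 2 / (q : ℝ) ^ 2) ^ 2
      ≤ (T.card : ℝ) ^ 2 * (q + 1) * ((q : ℝ) ^ 2) ^ 2 := by
  classical
  by_cases hq0 : q = 0
  · exfalso
    rw [hq0] at hF
    simp at hF
  have hqpos : (0 : ℝ) < q := by positivity
  set I : (Fin 3 → F) → (Fin 3 → F) → ℝ := fun w y => if hm σ w y = 0 then (1 : ℝ) else 0 with hI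
  set d : (Fin 3 → F) → ℝ := fun y => ∑ w ∈ T, I w y with hd
  set t : ℝ := (T.card : ℝ) with ht
  set Q : ℝ := (q : ℝ) ^ 2 with hQ
  have hQpos : 0 < Q := by positivity
  have h1 : ∀ w ∈ T, ∑ y, I w y = Q ^ 2 := by
    intro w hw
    have hw0 : w ≠ 0 := by
      intro h
      have := hT w hw
      rw [h] at this
      simp [hm] at this
    rw [hI]
    simp only [Finset.sum_ite, Finset.sum_const, nsmul_eq_mul, mul_one, mul_zero, add_zero]
    rw [card_ker_eq σ hb hw0, hF]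
    push_cast
    rfl
  have h2 : ∀ w ∈ T, ∀ w' ∈ T, ∑ y, I w y * I w' y ≤ Q + (if cross w w' = 0 then Q ^ 2 else 0) := by
    intro w hw w' hw'
    by_cases hc : cross w w' = 0
    · rw [if_pos hc]
      have : ∑ y, I w y * I w' y ≤ ∑ y, I w y := by
        apply Finset.sum_le_sum
        intro y _
        simp only [hI]
        split_ifs <;> norm_num
      rw [h1 w hw] at this
      linarith
    · rw [if_neg hc, add_zero]
      have e : ∀ y, I w y * I w' y = if (hm σ w y = 0 ∧ hm σ w' y = 0) then (1 : ℝ) else 0 := by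
        intro y
        simp only [hI]
        by_cases a : hm σ w y = 0 <;> by_cases b : hm σ w' y = 0 <;> simp [a, b]
      simp only [e, Finset.sum_ite, Finset.sum_const, nsmul_eq_mul, mul_one, mul_zero, add_zero]
      have := card_pair_le σ hb hc
      rw [hF] at this
      have h' : ((univ.filter (fun y : Fin 3 → F => hm σ w y = 0 ∧ hm σ w' y = 0)).card : ℝ)
        ≤ ((q ^ 2 : ℕ) : ℝ) := by exact_mod_cast this
      rw [hQ]
      push_cast at h'
      exact h'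
  have hsum1 : ∑ y, d y = t * Q ^ 2 := by
    rw [hd, Finset.sum_comm, Finset.sum_congr rfl h1, Finset.sum_const, nsmul_eq_mul]
  have hsum2 : ∑ y, d y ^ 2 ≤ t ^ 2 * Q + t * (q + 1) * Q ^ 2 := by
    have e : ∀ y, d y ^ 2 = ∑ w ∈ T, ∑ w' ∈ T, I w y * I w' y := by
      intro y
      rw [hd, sq, Finset.sum_mul_sum]
    simp only [e]
    rw [Finset.sum_comm]
    calc ∑ w ∈ T, ∑ y, ∑ w' ∈ T, I w y * I w' y
        = ∑ w ∈ T, ∑ w' ∈ T, ∑ y, I w y * I w' y := by
          apply Finset.sum_congr rfl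
          intro w _
          rw [Finset.sum_comm]
      _ ≤ ∑ w ∈ T, ∑ w' ∈ T, (Q + (if cross w w' = 0 then Q ^ 2 else 0)) := by
          apply Finset.sum_le_sum
          intro w hw
          apply Finset.sum_le_sum
          intro w' hw'
          exact h2 w hw w' hw'
      _ ≤ ∑ w ∈ T, (t * Q + (q + 1) * Q ^ 2) := by
          apply Finset.sum_le_sum
          intro w hw
          rw [Finset.sum_add_distrib, Finset.sum_const, nsmul_eq_mul, Finset.sum_ite,
            Finset.sum_const, Finset.sum_const_zero, add_zero, nsmul_eq_mul]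
          have hsub : (T.filter (fun w' => cross w w' = 0)).card ≤ q + 1 := by
            refine le_trans (Finset.card_le_card ?_) (card_prop_le σ hq (hT w hw))
            intro x hx
            rw [mem_filter] at hx ⊢
            exact ⟨mem_univ _, hT x hx.1, hx.2⟩
          have hsub' : ((T.filter (fun w' => cross w w' = 0)).card : ℝ) ≤ q + 1 := by
            exact_mod_cast hsub
          have := mul_le_mul_of_nonneg_right hsub' (sq_nonneg Q)
          linarith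
      _ = t ^ 2 * Q + t * (q + 1) * Q ^ 2 := by
          rw [Finset.sum_const, nsmul_eq_mul]; ring
  have hcardV : ((univ : Finset (Fin 3 → F)).card : ℝ) = Q ^ 3 := by
    rw [Finset.card_univ, Fintype.card_fun, hF]
    simp [hQ]
  have hV : ∑ y, (d y - t / Q) ^ 2 ≤ t * (q + 1) * Q ^ 2 := by
    have e : ∀ y, (d y - t / Q) ^ 2 = d y ^ 2 - 2 * (t / Q) * d y + (t / Q) ^ 2 := by
      intro y; ring
    simp only [e]
    rw [Finset.sum_add_distrib, Finset.sum_sub_distrib, ← Finset.mul_sum, hsum1, Finset.sum_const,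
      nsmul_eq_mul, hcardV]
    have e2 : 2 * (t / Q) * (t * Q ^ 2) = 2 * t ^ 2 * Q := by field_simp
    have e3 : Q ^ 3 * (t / Q) ^ 2 = t ^ 2 * Q := by field_simp
    rw [e2, e3]
    linarith
  have hCS : (∑ y ∈ T, (d y - t / Q)) ^ 2 ≤ t * ∑ y ∈ T, (d y - t / Q) ^ 2 :=
    sq_sum_le_card_mul_sum_sq
  have hsubV : ∑ y ∈ T, (d y - t / Q) ^ 2 ≤ ∑ y, (d y - t / Q) ^ 2 :=
    Finset.sum_le_sum_of_subset_of_nonneg (subset_univ _) (fun _ _ _ => sq_nonneg _)
  have hE : ∑ y ∈ T, (d y - t / Q) = (∑ y ∈ T, ∑ w ∈ T, I w y) - t ^ 2 / Q := by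
    rw [Finset.sum_sub_distrib, Finset.sum_const, nsmul_eq_mul]
    ring
  rw [← hE]
  have ht0 : 0 ≤ t := by positivity
  calc _ ≤ t * ∑ y ∈ T, (d y - t / Q) ^ 2 := hCS
    _ ≤ t * (t * (q + 1) * Q ^ 2) := by
      apply mul_le_mul_of_nonneg_left _ ht0
      linarith
    _ = t ^ 2 * (q + 1) * Q ^ 2 := by ring

end counting2

section final

variable [Fintype F]

/-- The key real inequality on the number of unit vectors in the cone over a triangle-free set. -/
theorem unit_bound {q : ℕ} (hq2 : 2 ≤ q) (σ : F →+* F) (φ : ℤ√2 →+* F)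
    (hσ : ∀ x, σ (σ x) = x) (hq : ∀ x : F, σ x = x ^ q) (hF : Fintype.card F = q ^ 2)
    (h5 : (5 : F) = 0)
    (hw : σ (φ Zsqrtd.sqrtd) = - φ Zsqrtd.sqrtd)
    (c : (Fin 3 → F) → ℤ) (hc : ∀ v, c v = 0 ∨ c v = 1)
    (hinv : ∀ (a : F) (v : Fin 3 → F), a ≠ 0 → c (a • v) = c v)
    (h3 : ∀ M ∈ GG σ, c (col M 0) * c (col M 1) * c (col M 2) = 0)
    (T : Finset (Fin 3 → F)) (hTm : ∀ v, v ∈ T ↔ hm σ v v = 1 ∧ c v = 1) :
    114 * (((T.card : ℝ) ^ 2 / (q : ℝ) ^ 2) - T.card * (q : ℝ) ^ 2 * Real.sqrt (q + 1))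
      ≤ 56 * (T.card * ((q : ℝ) ^ 4 / (q - 1))) := by
  classical
  have hb : Function.Bijective σ := ⟨σ.injective, fun x => ⟨σ x, hσ x⟩⟩
  have hmain := main_ineq σ φ hσ h5 hw c hc hinv h3
  have hA := sum_GG σ hσ (fun v _ => c v)
  have hE := sum_GG σ hσ (fun v w => c v * c w)
  rw [hA, hE] at hmain
  -- rewrite in terms of `T`
  have hE' : (∑ p ∈ OO σ, c p.1 * c p.2 : ℤ)
      = ∑ y ∈ T, ∑ w ∈ T, (if hm σ w y = 0 then (1 : ℤ) else 0) := by
    rw [← Finset.sum_product', ← Finset.sum_filter, Finset.sum_const, nsmul_eq_mul, mul_one]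
    have : ∀ p ∈ OO σ, c p.1 * c p.2 = if (c p.1 = 1 ∧ c p.2 = 1) then 1 else 0 := by
      intro p _
      rcases hc p.1 with a | a <;> rcases hc p.2 with b | b <;> simp [a, b]
    rw [Finset.sum_congr rfl this, ← Finset.sum_filter, Finset.sum_const, nsmul_eq_mul, mul_one]
    congr 1
    apply Finset.card_bij (fun p _ => (p.2, p.1))
    · intro p hp
      simp only [OO, mem_filter, mem_univ, true_and] at hp
      simp only [mem_filter, mem_product, hTm]
      exact ⟨⟨⟨hp.1.2.1, hp.2.2⟩, ⟨hp.1.1, hp.2.1⟩⟩, hp.1.2.2⟩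
    · intro p _ p' _ h
      simp only [Prod.mk.injEq] at h
      exact Prod.ext h.2 h.1
    · intro p hp
      simp only [mem_filter, mem_product, hTm] at hp
      refine ⟨(p.2, p.1), ?_, rfl⟩
      simp only [OO, mem_filter, mem_univ, true_and]
      exact ⟨⟨hp.1.2.1, hp.1.1.1, hp.2⟩, hp.1.2.2, hp.1.1.2⟩
  have hA' : (∑ p ∈ OO σ, c p.1 : ℤ)
      ≤ ∑ v ∈ T, ((univ.filter (fun w : Fin 3 → F => hm σ w w = 1 ∧ hm σ v w = 0)).card : ℤ) := by
    have : ∀ p ∈ OO σ, c p.1 = if (c p.1 = 1) then 1 else 0 := by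
      intro p _
      rcases hc p.1 with a | a <;> simp [a]
    rw [Finset.sum_congr rfl this, ← Finset.sum_filter, Finset.sum_const, nsmul_eq_mul, mul_one]
    rw [← Nat.cast_sum, ← Finset.card_sigma]
    apply Nat.cast_le.2
    apply Finset.card_le_card_of_injOn (fun p => (⟨p.1, p.2⟩ : (_ : Fin 3 → F) × (Fin 3 → F)))
    · intro p hp
      rw [mem_coe, mem_filter] at hp
      simp only [OO, mem_filter, mem_univ, true_and] at hp
      rw [mem_coe, mem_sigma, hTm, mem_filter]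
      exact ⟨⟨hp.1.1, hp.2⟩, mem_univ _, hp.1.2.1, hp.1.2.2⟩
    · intro p _ p' _ h
      simp only [Sigma.mk.injEq, heq_eq_eq] at h
      exact Prod.ext h.1 h.2
  have hqr : (1 : ℝ) < q := by exact_mod_cast hq2
  have hA'' : ((∑ v ∈ T, ((univ.filter (fun w : Fin 3 → F =>
      hm σ w w = 1 ∧ hm σ v w = 0)).card : ℤ) : ℤ) : ℝ) ≤ T.card * ((q : ℝ) ^ 4 / (q - 1)) := by
    push_cast
    rw [← nsmul_eq_mul]
    apply Finset.sum_le_card_nsmul
    intro v hv
    have hv1 := ((hTm v).1 hv).1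
    have hv0 : v ≠ 0 := by
      intro h
      rw [h] at hv1
      simp [hm] at hv1
    have h := card_D_le σ hb hq hF hv0
    set n := (univ.filter (fun w : Fin 3 → F => hm σ w w = 1 ∧ hm σ v w = 0)).card
    have h' : ((q : ℝ) ^ 2 - 1) * n ≤ ((q : ℝ) ^ 2) ^ 2 * (q + 1) := by
      have h1 : (((q ^ 2 - 1 : ℕ) : ℝ)) = (q : ℝ) ^ 2 - 1 := by
        rw [Nat.cast_sub (Nat.one_le_pow _ _ (by omega))]
        push_cast; ring
      rw [← h1]
      exact_mod_cast h
    rw [le_div_iff₀ (by linarith)]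
    have h2 : ((q : ℝ) ^ 2 - 1) * n = (q + 1) * (n * (q - 1)) := by ring
    have h4 : ((q : ℝ) ^ 2) ^ 2 * (q + 1) = (q + 1) * (q : ℝ) ^ 4 := by ring
    rw [h2, h4] at h'
    exact le_of_mul_le_mul_left h' (by linarith)
  have hsm := second_moment σ hb hq hF T (fun w hw => ((hTm w).1 hw).1)
  set E : ℝ := ∑ y ∈ T, ∑ w ∈ T, (if hm σ w y = 0 then (1 : ℝ) else 0) with hEdef
  have hEcast : ((∑ p ∈ OO σ, c p.1 * c p.2 : ℤ) : ℝ) = E := by
    rw [hE']
    push_cast
    rfl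
  have hmainR : 114 * E ≤ 56 * ((∑ p ∈ OO σ, c p.1 : ℤ) : ℝ) := by
    rw [← hEcast]
    exact_mod_cast hmain
  have hAR : ((∑ p ∈ OO σ, c p.1 : ℤ) : ℝ) ≤ T.card * ((q : ℝ) ^ 4 / (q - 1)) := by
    refine le_trans ?_ hA''
    exact_mod_cast hA'
  have hEge : (T.card : ℝ) ^ 2 / (q : ℝ) ^ 2 - T.card * (q : ℝ) ^ 2 * Real.sqrt (q + 1) ≤ E := by
    have hs : Real.sqrt ((q : ℝ) + 1) ^ 2 = q + 1 := Real.sq_sqrt (by linarith)
    have h1 : (E - (T.card : ℝ) ^ 2 / (q : ℝ) ^ 2) ^ 2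
        ≤ (T.card * (q : ℝ) ^ 2 * Real.sqrt (q + 1)) ^ 2 := by
      have : (T.card * (q : ℝ) ^ 2 * Real.sqrt (q + 1)) ^ 2
          = (T.card : ℝ) ^ 2 * (q + 1) * ((q : ℝ) ^ 2) ^ 2 := by
        rw [mul_pow, mul_pow, hs]; ring
      rw [this]; exact hsm
    have h2 : 0 ≤ T.card * (q : ℝ) ^ 2 * Real.sqrt (q + 1) := by positivity
    have := abs_le_of_sq_le_sq h1 h2
    linarith [(abs_le.1 this).1]
  linarith

/-- Upper bound for triangle-free sets of points of the unitary polarity graph. -/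
theorem triangle_free_bound {k : ℕ} (hk : Odd k) [DecidableEq F]
    (hF : Fintype.card F = (5 ^ k) ^ 2)
    (S : Finset (Projectivization F (Fin 3 → F)))
    (hS : ∀ x ∈ S, ∀ y ∈ S, ∀ z ∈ S, x ≠ y → y ≠ z → x ≠ z →
          ¬ ((∑ i : Fin 3, x.rep i * (y.rep i) ^ (5 ^ k)) = 0 ∧
             (∑ i : Fin 3, y.rep i * (z.rep i) ^ (5 ^ k)) = 0 ∧
             (∑ i : Fin 3, x.rep i * (z.rep i) ^ (5 ^ k)) = 0)) :
    (((5 : ℝ) ^ k) ^ 2 - 1) * (S.card : ℝ)
      ≤ 28 / 57 * ((5 : ℝ) ^ k) ^ 6 + ((5 : ℝ) ^ k - 1) * ((5 : ℝ) ^ k) ^ 4 * Real.sqrt ((5 : ℝ) ^ k + 1)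
        + ((5 : ℝ) ^ k) ^ 4 * ((5 : ℝ) ^ k + 1) := by
  classical
  set q : ℕ := 5 ^ k with hqdef
  have hq5 : 5 ≤ q := by
    rw [hqdef]
    calc 5 = 5 ^ 1 := rfl
      _ ≤ 5 ^ k := Nat.pow_le_pow_right (by norm_num) hk.pos
  have hq2 : 2 ≤ q := by omega
  have : Fact (Nat.Prime 5) := ⟨by norm_num⟩
  -- characteristic five
  have hchar : CharP F 5 := by
    obtain ⟨p, hp⟩ := CharP.exists F
    obtain ⟨n, hpp, hn⟩ := FiniteField.card F p
    have h1 : p ∣ (5 ^ k) ^ 2 := by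
      rw [← hF, hn]
      exact dvd_pow_self p n.ne_zero
    have h2 : p ∣ 5 := hpp.dvd_of_dvd_pow (hpp.dvd_of_dvd_pow h1)
    have h3 : p = 5 := (Nat.prime_dvd_prime_iff_eq hpp (by norm_num)).1 h2
    rw [← h3]; exact hp
  have h5 : (5 : F) = 0 := by
    have := CharP.cast_eq_zero F 5
    exact_mod_cast this
  haveI : ExpChar F 5 := ExpChar.prime (by norm_num)
  set σ : F →+* F := iterateFrobenius F 5 k with hσdef
  have hq : ∀ x : F, σ x = x ^ q := by
    intro x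
    rw [hσdef, iterateFrobenius_def]
  have hσ : ∀ x, σ (σ x) = x := by
    intro x
    rw [hq, hq, ← pow_mul, ← sq, ← hF, FiniteField.pow_card]
  -- the square root of two
  have h2ne : (2 : F) ≠ 0 := by
    intro h
    have : (1 : F) = 0 := by linear_combination h5 - 2 * h
    exact one_ne_zero this
  have hring : ringChar F ≠ 2 := by
    rw [ringChar.eq F 5]; norm_num
  have hsq : IsSquare (2 : F) := by
    rw [FiniteField.isSquare_iff hring h2ne, hF]
    have h16 : (2 : F) ^ 4 = 1 := by linear_combination 3 * h5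
    obtain ⟨m, hm⟩ : 4 ∣ q ^ 2 / 2 := by
      have hodd : Odd q := by rw [hqdef]; exact Odd.pow (by decide)
      obtain ⟨a, ha⟩ := hodd
      have h1 : q ^ 2 = 8 * (a * (a + 1) / 2) + 1 := by
        have h2 : 2 ∣ a * (a + 1) := (Nat.even_mul_succ_self a).two_dvd
        obtain ⟨b, hb⟩ := h2
        rw [hb, Nat.mul_div_cancel_left _ (by norm_num), ha]
        nlinarith
      omega
    rw [hm, pow_mul, h16, one_pow]
  obtain ⟨w, hw⟩ := hsq
  have hw5 : ∀ n : ℕ, w ^ (5 ^ n) = (-1) ^ n * w := by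
    intro n
    induction n with
    | zero => simp
    | succ n ih =>
      rw [pow_succ, pow_mul, ih, mul_pow, ← pow_mul, mul_comm n 5, pow_mul,
        show ((-1 : F) ^ 5) = -1 by norm_num, pow_succ (-1 : F) n]
      have : w ^ 5 = 4 * w := by
        calc w ^ 5 = (w * w) * (w * w) * w := by ring
          _ = 4 * w := by rw [← hw]; ring
      rw [this]
      linear_combination (-1) ^ n * w * h5
  set φ : ℤ√2 →+* F := Zsqrtd.lift (d := 2) ⟨w, by rw [← hw]; push_cast; rfl⟩ with hφ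
  have hφw : φ Zsqrtd.sqrtd = w := by
    rw [hφ]
    simp
  have hw' : σ (φ Zsqrtd.sqrtd) = - φ Zsqrtd.sqrtd := by
    rw [hφw, hq, hw5, hk.neg_one_pow]; ring
  -- the indicator function
  set c : (Fin 3 → F) → ℤ := fun v =>
    if h : ∃ hv : v ≠ 0, Projectivization.mk F v hv ∈ S then 1 else 0 with hcdef
  have hc : ∀ v, c v = 0 ∨ c v = 1 := by
    intro v
    rw [hcdef]
    by_cases h : ∃ hv : v ≠ 0, Projectivization.mk F v hv ∈ S
    · right; simp [h]
    · left; simp only [h, dite_false]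
  have hc1 : ∀ v, c v = 1 ↔ ∃ hv : v ≠ 0, Projectivization.mk F v hv ∈ S := by
    intro v
    rw [hcdef]
    by_cases h : ∃ hv : v ≠ 0, Projectivization.mk F v hv ∈ S
    · simp [h]
    · simp only [h, dite_false]; simp
  have hmk : ∀ (a : F) (v : Fin 3 → F) (ha : a ≠ 0) (hv : v ≠ 0),
      Projectivization.mk F (a • v) (smul_ne_zero ha hv) = Projectivization.mk F v hv := by
    intro a v ha hv
    rw [Projectivization.mk_eq_mk_iff']
    exact ⟨a, rfl⟩
  have hinv1 : ∀ (a : F) (v : Fin 3 → F), a ≠ 0 → c v = 1 → c (a • v) = 1 := by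
    intro a v ha h
    rw [hc1] at h ⊢
    obtain ⟨hv, h⟩ := h
    exact ⟨smul_ne_zero ha hv, by rw [hmk a v ha hv]; exact h⟩
  have hinv : ∀ (a : F) (v : Fin 3 → F), a ≠ 0 → c (a • v) = c v := by
    intro a v ha
    rcases hc v with h | h
    · rcases hc (a • v) with h' | h'
      · rw [h, h']
      · exfalso
        have := hinv1 a⁻¹ (a • v) (inv_ne_zero ha) h'
        rw [smul_smul, inv_mul_cancel₀ ha, one_smul, h] at this
        exact zero_ne_one this
    · rw [h, hinv1 a v ha h]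
  have h3 : ∀ M ∈ GG σ, c (col M 0) * c (col M 1) * c (col M 2) = 0 := by
    intro M hM
    rw [mem_GG] at hM
    by_contra hne
    have hne0 : c (col M 0) ≠ 0 := fun h => hne (by rw [h]; ring)
    have hne1 : c (col M 1) ≠ 0 := fun h => hne (by rw [h]; ring)
    have hne2 : c (col M 2) ≠ 0 := fun h => hne (by rw [h]; ring)
    have g0 := (hc (col M 0)).resolve_left hne0
    have g1 := (hc (col M 1)).resolve_left hne1
    have g2 := (hc (col M 2)).resolve_left hne2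
    rw [hc1] at g0 g1 g2
    obtain ⟨v0, s0⟩ := g0
    obtain ⟨v1, s1⟩ := g1
    obtain ⟨v2, s2⟩ := g2
    have hdist : ∀ (i j : Fin 3) (hi : col M i ≠ 0) (hj : col M j ≠ 0), i ≠ j →
        Projectivization.mk F (col M i) hi ≠ Projectivization.mk F (col M j) hj := by
      intro i j hi hj hij h
      rw [Projectivization.mk_eq_mk_iff'] at h
      obtain ⟨a, ha⟩ := h
      have e1 := hm_col σ hM j i
      rw [if_neg hij.symm, ← ha, hm_smul_left, hm_col σ hM j j, if_pos rfl, mul_one] at e1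
      rw [e1, zero_smul] at ha
      exact hi ha.symm
    have horth : ∀ (i j : Fin 3) (hi : col M i ≠ 0) (hj : col M j ≠ 0), i ≠ j →
        (∑ t : Fin 3, (Projectivization.mk F (col M i) hi).rep t *
          ((Projectivization.mk F (col M j) hj).rep t) ^ q) = 0 := by
      intro i j hi hj hij
      obtain ⟨a, ha⟩ := Projectivization.exists_smul_eq_mk_rep F (col M i) hi
      obtain ⟨b, hb⟩ := Projectivization.exists_smul_eq_mk_rep F (col M j) hj
      rw [← ha, ← hb]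
      have e1 := hm_col σ hM j i
      rw [if_neg hij.symm] at e1
      have e2 : hm σ ((a : F) • col M i) ((b : F) • col M j) = 0 := by
        rw [hm_smul_left, hm_smul_right, e1]; ring
      rw [hm] at e2
      simp only [hq] at e2
      exact e2
    exact hS _ s0 _ s1 _ s2 (hdist 0 1 v0 v1 (by decide)) (hdist 1 2 v1 v2 (by decide))
      (hdist 0 2 v0 v2 (by decide))
      ⟨horth 0 1 v0 v1 (by decide), horth 1 2 v1 v2 (by decide), horth 0 2 v0 v2 (by decide)⟩
  set T : Finset (Fin 3 → F) := univ.filter (fun u : Fin 3 → F => hm σ u u = 1 ∧ c u = 1) with hT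
  have hTm : ∀ v, v ∈ T ↔ hm σ v v = 1 ∧ c v = 1 := by intro v; rw [hT, mem_filter]; simp
  have hub := unit_bound hq2 σ φ hσ hq hF h5 hw' c hc hinv h3 T hTm
  have hW := card_W_le σ hq2 hσ hq hF c hinv
  rw [← hT] at hW
  have hI := card_iso_le σ hq hF
  set W := univ.filter (fun u : Fin 3 → F => hm σ u u ≠ 0 ∧ c u = 1) with hWdef
  set Z := univ.filter (fun u : Fin 3 → F => hm σ u u = 0) with hZdef
  have hcount : (q ^ 2 - 1) * S.card ≤ W.card + Z.card := by
    set L := univ.filter (fun x : F => x ≠ 0) with hL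
    have hLc : L.card = q ^ 2 - 1 := by
      rw [hL, Finset.filter_ne' univ (0 : F), Finset.card_erase_of_mem (mem_univ _),
        Finset.card_univ, hF]
    rw [← hLc, ← Finset.card_product]
    refine le_trans ?_ (Finset.card_union_le W Z)
    apply Finset.card_le_card_of_injOn (fun p => p.1 • p.2.rep)
    · intro p hp
      rw [mem_coe, mem_product, hL, mem_filter] at hp
      have h1 : c (p.1 • p.2.rep) = 1 := by
        apply hinv1 _ _ hp.1.2
        rw [hc1]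
        exact ⟨p.2.rep_nonzero, by rw [Projectivization.mk_rep]; exact hp.2⟩
      rw [mem_coe, mem_union, hWdef, hZdef, mem_filter, mem_filter]
      by_cases h0 : hm σ (p.1 • p.2.rep) (p.1 • p.2.rep) = 0
      · right; exact ⟨mem_univ _, h0⟩
      · left; exact ⟨mem_univ _, h0, h1⟩
    · intro p hp p' hp' h
      rw [mem_coe, mem_product, hL, mem_filter] at hp hp'
      have h : p.1 • p.2.rep = p'.1 • p'.2.rep := h
      have e1 := hmk p.1 p.2.rep hp.1.2 p.2.rep_nonzero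
      have e2 := hmk p'.1 p'.2.rep hp'.1.2 p'.2.rep_nonzero
      rw [Projectivization.mk_rep] at e1 e2
      have e3 : p.2 = p'.2 := by
        rw [← e1, ← e2]
        congr 1
      refine Prod.ext ?_ e3
      rw [e3] at h
      have h' : (p.1 - p'.1) • p'.2.rep = 0 := by rw [sub_smul, h, sub_self]
      rcases smul_eq_zero.1 h' with h'' | h''
      · exact sub_eq_zero.1 h''
      · exact absurd h'' p'.2.rep_nonzero
  -- real arithmetic
  have hqR : ((q : ℕ) : ℝ) = (5 : ℝ) ^ k := by rw [hqdef]; push_cast; rfl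
  rw [← hqR]
  set x : ℝ := (q : ℝ) with hx
  have hx5 : (5 : ℝ) ≤ x := by rw [hx]; exact_mod_cast hq5
  have hsub : (((q ^ 2 - 1 : ℕ) : ℝ)) = x ^ 2 - 1 := by
    rw [Nat.cast_sub (Nat.one_le_pow _ _ (by omega))]
    push_cast; ring
  have c1 : (x ^ 2 - 1) * (S.card : ℝ) ≤ W.card + Z.card := by
    rw [← hsub]; exact_mod_cast hcount
  have c2 : (x + 1) * (W.card : ℝ) ≤ (x ^ 2 - 1) * T.card := by
    rw [← hsub, hx]; exact_mod_cast hW
  have c3 : (Z.card : ℝ) ≤ (x ^ 2) ^ 2 * (x + 1) := by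
    rw [hx]; exact_mod_cast hI
  have c2' : (W.card : ℝ) ≤ (x - 1) * T.card := by
    have : (x ^ 2 - 1) * (T.card : ℝ) = (x + 1) * ((x - 1) * T.card) := by ring
    rw [this] at c2
    exact le_of_mul_le_mul_left c2 (by linarith)
  set r : ℝ := Real.sqrt (x + 1) with hr
  have hr0 : 0 ≤ r := Real.sqrt_nonneg _
  have c4 : (x - 1) * (T.card : ℝ) ≤ 28 / 57 * x ^ 6 + (x - 1) * x ^ 4 * r := by
    rcases Nat.eq_zero_or_pos T.card with h0 | h0
    · rw [h0]
      have : 0 ≤ (x - 1) * x ^ 4 * r := by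
        apply mul_nonneg (mul_nonneg (by linarith) (by positivity)) hr0
      have h6 : 0 ≤ x ^ 6 := by positivity
      simp only [Nat.cast_zero, mul_zero]
      linarith
    · have hpos : (0 : ℝ) < T.card := by exact_mod_cast h0
      have e1 : 114 * ((T.card : ℝ) / x ^ 2 - x ^ 2 * r) ≤ 56 * (x ^ 4 / (x - 1)) := by
        have : (T.card : ℝ) * (114 * ((T.card : ℝ) / x ^ 2 - x ^ 2 * r))
            ≤ T.card * (56 * (x ^ 4 / (x - 1))) := by
          have a1 : (T.card : ℝ) * (114 * ((T.card : ℝ) / x ^ 2 - x ^ 2 * r))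
            = 114 * ((T.card : ℝ) ^ 2 / x ^ 2 - T.card * x ^ 2 * r) := by ring
          rw [a1]
          linarith
        exact le_of_mul_le_mul_left this hpos
      have hx1 : 0 < x - 1 := by linarith
      have hxx : 0 < x ^ 2 := by positivity
      have e2 : (T.card : ℝ) / x ^ 2 ≤ 28 / 57 * (x ^ 4 / (x - 1)) + x ^ 2 * r := by linarith
      rw [div_le_iff₀ hxx] at e2
      have e3 : (x - 1) * (T.card : ℝ)
          ≤ (x - 1) * ((28 / 57 * (x ^ 4 / (x - 1)) + x ^ 2 * r) * x ^ 2) :=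
        mul_le_mul_of_nonneg_left e2 hx1.le
      have e4 : (x - 1) * ((28 / 57 * (x ^ 4 / (x - 1)) + x ^ 2 * r) * x ^ 2)
          = 28 / 57 * x ^ 6 + (x - 1) * x ^ 4 * r := by
        field_simp
      rw [e4] at e3
      exact e3
  have e5 : (x ^ 2) ^ 2 * (x + 1) = x ^ 4 * (x + 1) := by ring
  rw [e5] at c3
  linarith

end final

section conclusion

/-- Numerical conclusion. -/
theorem numeric {x s : ℝ} (hx : 1000000 ≤ x)
    (h : (x ^ 2 - 1) * s ≤ 28 / 57 * x ^ 6 + (x - 1) * x ^ 4 * Real.sqrt (x + 1)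
      + x ^ 4 * (x + 1)) : s < (1 / 2 - 1 / 200) * x ^ 4 := by
  have hr : Real.sqrt (x + 1) ≤ x / 900 := by
    apply Real.sqrt_le_iff.2
    constructor
    · positivity
    · nlinarith
  by_contra hcon
  push Not at hcon
  have h4 : 0 < x ^ 4 := by positivity
  have h1 : (x ^ 2 - 1) * ((1 / 2 - 1 / 200) * x ^ 4) ≤ (x ^ 2 - 1) * s :=
    mul_le_mul_of_nonneg_left hcon (by nlinarith)
  have h2 : (x - 1) * x ^ 4 * Real.sqrt (x + 1) ≤ (x - 1) * x ^ 4 * (x / 900) :=
    mul_le_mul_of_nonneg_left hr (mul_nonneg (by linarith) h4.le)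
  have h3 : x ^ 4 * ((x ^ 2 - 1) * (1 / 2 - 1 / 200))
      ≤ x ^ 4 * (28 / 57 * x ^ 2 + (x - 1) * (x / 900) + (x + 1)) := by
    nlinarith
  have h5 := le_of_mul_le_mul_left h3 h4
  nlinarith

theorem conclusion :
    ¬ (∀ ε : ℝ, 0 < ε → ∃ N : ℕ, ∀ (q : ℕ) (F : Type) [Field F] [Fintype F],
      Odd q → N ≤ q → Fintype.card F = q ^ 2 →
      ∃ S : Finset (Projectivization F (Fin 3 → F)),
        (1 / 2 - ε) * (q : ℝ) ^ 4 ≤ (S.card : ℝ) ∧
        ∀ x ∈ S, ∀ y ∈ S, ∀ z ∈ S, x ≠ y → y ≠ z → x ≠ z →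
          ¬ ((∑ i : Fin 3, x.rep i * (y.rep i) ^ q) = 0 ∧
             (∑ i : Fin 3, y.rep i * (z.rep i) ^ q) = 0 ∧
             (∑ i : Fin 3, x.rep i * (z.rep i) ^ q) = 0)) := by
  intro H
  obtain ⟨N, hN⟩ := H (1 / 200) (by norm_num)
  have : Fact (Nat.Prime 5) := ⟨by norm_num⟩
  have hk : Odd (2 * N + 9) := ⟨N + 4, by ring⟩
  have hNk : N ≤ 5 ^ (2 * N + 9) := by
    have h1 : 2 * N + 9 < 5 ^ (2 * N + 9) := Nat.lt_pow_self (by norm_num)
    omega
  have hcard : Nat.card (GaloisField 5 (2 * (2 * N + 9))) = 5 ^ (2 * (2 * N + 9)) :=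
    GaloisField.card 5 _ (by omega)
  haveI : Finite (GaloisField 5 (2 * (2 * N + 9))) := by
    apply Nat.finite_of_card_ne_zero
    rw [hcard]
    positivity
  letI : Fintype (GaloisField 5 (2 * (2 * N + 9))) := Fintype.ofFinite _
  have hF : Fintype.card (GaloisField 5 (2 * (2 * N + 9))) = (5 ^ (2 * N + 9)) ^ 2 := by
    rw [← Nat.card_eq_fintype_card, hcard, ← pow_mul, mul_comm]
  obtain ⟨S, hS1, hS2⟩ := hN (5 ^ (2 * N + 9)) (GaloisField 5 (2 * (2 * N + 9)))
    (Odd.pow (by decide)) hNk hF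
  classical
  have hb := triangle_free_bound hk hF S hS2
  have hx : (1000000 : ℝ) ≤ (5 : ℝ) ^ (2 * N + 9) := by
    calc (1000000 : ℝ) ≤ 5 ^ 9 := by norm_num
      _ ≤ 5 ^ (2 * N + 9) := pow_le_pow_right₀ (by norm_num) (by omega)
  have hlt := numeric hx hb
  push_cast at hS1
  linarith

end conclusion

end Pool.Agent.Helper38.Dup
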